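import Pool.Agent.Helper454.Kauf.Final
import Pool.Agent.Helper454.Kauf.Exist10

set_option autoImplicit false

open Pool.Agent.Helper454.Kauf

namespace Pool.Agent.Results.MP_1130ce_gt.KauffmanVersusUnknotting

/-- `Λ` is Kauffman's regular isotopy invariant with values in `ℤ[a^{±1}, z^{±1}]`: it satisfies
Kauffman's rules and `Λ = 1` for the crossingless circle. -/
def IsKauffmanInvariant (Λ : Word → Raz) : Prop := KauffmanRules Λ ∧ Λ circle = 1

/-- `F` is the Kauffman polynomial `F_K(a, z) = a^{-w(K)} Λ_K(a, z)` of the knot with the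
diagram `K`: there are a Kauffman invariant `Λ` and a writhe `t` of `K`, and `F = a^{-t} Λ(K)` for
all of these. -/
def IsKauffmanPolynomialOf (K : Word) (F : Raz) : Prop :=
  (∃ (Λ : Word → Raz) (t : ℤ), IsKauffmanInvariant Λ ∧ HasWrithe K t) ∧
    ∀ (Λ : Word → Raz) (t : ℤ), IsKauffmanInvariant Λ → HasWrithe K t → F = normalised t (Λ K)

/-- There is a knot `K` for which the least exponent of `a` in `F_K(a⁻¹, z)` is greater
than `2 u(K)`. -/
theorem result :
    ∃ (K : Word) (F : Raz) (m : ℤ), IsKnot K ∧ IsKauffmanPolynomialOf K F ∧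
      IsLeast (exponentsInv F) m ∧ UnknottedBy (unknottingNumber K) K ∧
      2 * (unknottingNumber K : ℤ) < m := by
  refine ⟨knotK, normalised 5 polyK, 3, isKnot_K,
    ⟨⟨Ex.Lam Raz, 5, ⟨Ex.Lam_rules, Ex.Lam_circle⟩, hasWrithe_K⟩, ?_⟩, isLeast_K,
    Nat.sInf_mem (s := {n | UnknottedBy n knotK}) ⟨1, unknottedBy_K⟩, ?_⟩
  · intro Λ t hΛ ht
    obtain rfl := writhe_unique t ht
    have e : Λ knotK = polyK := by
      rw [value_K Λ hΛ.1, hΛ.2, smul_eq_mul, mul_one]
    rw [e]
  · have := unknottingNumber_K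
    omega

end Pool.Agent.Results.MP_1130ce_gt.KauffmanVersusUnknotting
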